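import Pool.Agent.H23.SP.Main

set_option autoImplicit false

/-!
# Modest posets: a class closed under ordinal sums, disjoint unions and subposets

Definitions: `UpperModest` (in `Pool.Agent.H23.PRam.Defs`), `Layers`, `Decomp`, `NFree` (in
`Pool.Agent.H23.SP.Class`).  Proofs: `Pool.Agent.H23.SP.*` (ordinal sums: `Series`; disjoint unions: `Coarse`,
`Parallel`, `Parallel2`; from few chains to the Ramsey statement: `Modest`; members of the class: `NFree`,
`Examples`, `OrdSum`) and `Pool.Agent.H23.PRam.*` (the layers `1`, `k`, `m - 1` of `Q_m`).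
-/

namespace Pool.Agent.Results.MP_d089b7_co.SeriesParallelModest

open Pool.Agent.H23.PRam Pool.Agent.H23.SP

/-- Every poset `P` in the class `Decomp` satisfies `R(P, Q_n) ≤ n + O(n / log n)`.  The class contains all
finite posets without induced `N` (the series-parallel posets), all finite posets of height at most two and
the Boolean lattice `Q_4`. -/
theorem result :
    (∀ (P : Type) [PartialOrder P], Decomp P → UpperModest P) ∧
    (∀ (P : Type) [Fintype P] [PartialOrder P], NFree P → Decomp P) ∧
    (∀ (P : Type) [Fintype P] [PartialOrder P], (∀ x y z : P, x < y → y < z → False) → Decomp P) ∧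
    Decomp (Finset (Fin 4)) :=
  ⟨fun P _ h => modest_of_decomp P h, fun P _ _ h => decomp_of_nfree _ P rfl h,
    fun P _ _ h => decomp_of_height_two P h, decomp_Q4⟩

/-- Every finite ordinal sum of subposets of the layers `1`, `k`, `m - 1` of `Q_m` is in the class. -/
theorem ordinal_sum (P : Type) [Fintype P] [PartialOrder P] (m k : ℕ) (hk : 2 ≤ k)
    (hkm : k + 2 ≤ m) (ρ : P → ℕ) (φ : P → Finset (Fin m)) (hρ : ∀ x y : P, ρ x < ρ y → x < y)
    (hφ : ∀ x y : P, ρ x = ρ y → (x ≤ y ↔ φ x ⊆ φ y))
    (hφc : ∀ x, (φ x).card = 1 ∨ (φ x).card = k ∨ (φ x).card + 1 = m) : Decomp P :=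
  decomp_of_ordinal_sum m k hk hkm (Finset.univ.sup ρ + 1) P ρ φ
    (fun x => Nat.lt_succ_of_le (Finset.le_sup (Finset.mem_univ x))) hρ hφ hφc

end Pool.Agent.Results.MP_d089b7_co.SeriesParallelModest
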